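import Mathlib

/-!
# MP_d3d931_al, Q2: a left and right nilpotent semigroup that is not supernilpotent

The semigroup `T` below is left 2-nilpotent and right 2-nilpotent, but it is not d-supernilpotent
for any d.
-/

namespace Pool.Agent.Results.MP_d3d931_al.NilpotentNotSuper

/-- `M α` is the subsemigroup of the matrices with rows indexed by `Fin k → Bool` and two columns
(indexed by `Bool`), attached to the `k + 1` congruences `α 0, …, α k`. -/
def M {S : Type*} [Semigroup S] {k : ℕ} (α : Fin (k + 1) → Con S) :
    Subsemigroup ((Fin k → Bool) → Bool → S) :=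
  Subsemigroup.closure
    ({m | ∃ i : Fin k, ∃ a b : S, α i.castSucc a b ∧ m = fun ε _ => if ε i then b else a} ∪
     {m | ∃ a b : S, α (Fin.last k) a b ∧ m = fun _ j => if j then b else a})

/-- The term condition defining the higher commutator. -/
def TermCond {S : Type*} [Semigroup S] {k : ℕ} (α : Fin (k + 1) → Con S) (δ : Con S) : Prop :=
  ∀ x ∈ M α, (∀ ε : Fin k → Bool, ε ≠ (fun _ => true) → δ (x ε false) (x ε true)) →
    δ (x (fun _ => true) false) (x (fun _ => true) true)

/-- The higher commutator `[α 0, …, α k]`. -/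
def comm {S : Type*} [Semigroup S] {k : ℕ} (α : Fin (k + 1) → Con S) : Con S :=
  sInf {δ | TermCond α δ}

/-- The commutator is the least congruence satisfying the term condition. -/
theorem comm_isLeast {S : Type*} [Semigroup S] {k : ℕ} (α : Fin (k + 1) → Con S) :
    IsLeast {δ | TermCond α δ} (comm α) := by
  refine ⟨?_, fun δ hδ => sInf_le hδ⟩
  intro x hx h
  have key : ∀ a b : S, comm α a b ↔ ∀ δ ∈ {δ | TermCond α δ}, δ a b := by
    intro a b
    rfl
  rw [key]
  intro δ hδ
  apply hδ x hx
  intro ε hε
  exact (key _ _).1 (h ε hε) δ hδ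

/-- `[1, [1, …, [1, 1]…]]` with `d + 1` copies of `1`. -/
def leftSeries (S : Type*) [Semigroup S] : ℕ → Con S
  | 0 => ⊤
  | d + 1 => comm (k := 1) ![⊤, leftSeries S d]

/-- `[…[[1, 1], 1], …, 1]` with `d + 1` copies of `1`. -/
def rightSeries (S : Type*) [Semigroup S] : ℕ → Con S
  | 0 => ⊤
  | d + 1 => comm (k := 1) ![rightSeries S d, ⊤]

def LeftNilpotent (S : Type*) [Semigroup S] (d : ℕ) : Prop := leftSeries S d = ⊥

def RightNilpotent (S : Type*) [Semigroup S] (d : ℕ) : Prop := rightSeries S d = ⊥

def Supernilpotent (S : Type*) [Semigroup S] (d : ℕ) : Prop :=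
  comm (fun _ : Fin (d + 1) => (⊤ : Con S)) = ⊥

/-- The underlying set of the example. -/
inductive T : Type
  | b : T
  | e (l : Bool) (m : ℕ) (r : Bool) : T
  | D : T
  deriving DecidableEq

namespace T

/-- the multiplication -/
def mul : T → T → T
  | b, b => b
  | b, e _ m r => e false m r
  | b, D => e false 3 true
  | e l m _, b => e l m false
  | D, b => e true 3 false
  | e l m _, e _ m' r' =>
      if l = true ∧ m = 1 ∧ m' = 0 ∧ r' = true then D else e l (m + m' + 2) r'
  | e l m _, D => e l (m + 5) true
  | D, e _ m' r' => e true (m' + 5) r'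
  | D, D => e true 8 true

theorem mul_assoc' (x y z : T) : mul (mul x y) z = mul x (mul y z) := by
  rcases x with _ | ⟨l, m, r⟩ | _ <;> rcases y with _ | ⟨l', m', r'⟩ | _ <;>
    rcases z with _ | ⟨l'', m'', r''⟩ | _ <;> simp only [mul] <;>
    (try split_ifs) <;> simp_all <;> omega

instance : Semigroup T where
  mul := mul
  mul_assoc := mul_assoc'

theorem mul_def (x y : T) : x * y = mul x y := rfl

/-- left type -/
def L : T → Bool
  | b => false
  | e l _ _ => l
  | D => true

/-- right type -/
def R : T → Bool
  | b => false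
  | e _ _ r => r
  | D => true

/-- weight -/
def V : T → ℕ
  | b => 0
  | e _ m _ => m + 2
  | D => 5

theorem L_mul (x y : T) : (x * y).L = x.L := by
  rw [mul_def]
  rcases x with _ | ⟨l, m, r⟩ | _ <;> rcases y with _ | ⟨l', m', r'⟩ | _ <;>
    simp only [mul] <;> (try split_ifs) <;> simp_all [L]

theorem R_mul (x y : T) : (x * y).R = y.R := by
  rw [mul_def]
  rcases x with _ | ⟨l, m, r⟩ | _ <;> rcases y with _ | ⟨l', m', r'⟩ | _ <;>
    simp only [mul] <;> (try split_ifs) <;> simp_all [R]

theorem V_mul (x y : T) : (x * y).V = x.V + y.V := by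
  rw [mul_def]
  rcases x with _ | ⟨l, m, r⟩ | _ <;> rcases y with _ | ⟨l', m', r'⟩ | _ <;>
    simp only [mul] <;> (try split_ifs) <;> simp_all [V] <;> omega

/-- The kernel of `(L, V, R)`. -/
def ker : Con T where
  r x y := x.L = y.L ∧ x.V = y.V ∧ x.R = y.R
  iseqv := ⟨fun _ => ⟨rfl, rfl, rfl⟩, fun h => ⟨h.1.symm, h.2.1.symm, h.2.2.symm⟩,
    fun h h' => ⟨h.1.trans h'.1, h.2.1.trans h'.2.1, h.2.2.trans h'.2.2⟩⟩
  mul' := by
    intro w x y z h h'
    exact ⟨by rw [L_mul, L_mul, h.1], by rw [V_mul, V_mul, h.2.1, h'.2.1],
      by rw [R_mul, R_mul, h'.2.2]⟩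

theorem ker_iff (x y : T) : ker x y ↔ (x.L = y.L ∧ x.V = y.V ∧ x.R = y.R) := Iff.rfl

/-- products only depend on the classes modulo `ker` -/
theorem mul_eq_of_ker {x x' y y' : T} (h : ker x x') (h' : ker y y') : x * y = x' * y' := by
  rw [ker_iff] at h h'
  obtain ⟨h1, h2, h3⟩ := h
  obtain ⟨h4, h5, h6⟩ := h'
  rw [mul_def, mul_def]
  rcases x with _ | ⟨l, m, r⟩ | _ <;> rcases x' with _ | ⟨l', m', r'⟩ | _ <;>
    simp [L, V, R] at h1 h2 h3 <;>
    rcases y with _ | ⟨k, n, s⟩ | _ <;> rcases y' with _ | ⟨k', n', s'⟩ | _ <;>
    simp [L, V, R] at h4 h5 h6 <;> subst_vars <;> simp [mul] <;> omega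

end T

open T

/-- `[1, 1] ≤ ker` -/
theorem comm_top_top_le : comm (k := 1) ![(⊤ : Con T), ⊤] ≤ ker := by
  apply sInf_le
  intro x hx h
  have inv : ∀ x ∈ M (k := 1) ![(⊤ : Con T), ⊤],
      ((x (fun _ => false) false).L = (x (fun _ => false) true).L →
        (x (fun _ => true) false).L = (x (fun _ => true) true).L) ∧
      ((x (fun _ => false) false).R = (x (fun _ => false) true).R →
        (x (fun _ => true) false).R = (x (fun _ => true) true).R) ∧
      ((x (fun _ => false) false).V + (x (fun _ => true) true).V =
        (x (fun _ => false) true).V + (x (fun _ => true) false).V) := by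
    intro x hx
    induction hx using Subsemigroup.closure_induction with
    | mem y hy =>
      rcases hy with ⟨i, a, c, _, rfl⟩ | ⟨a, c, _, rfl⟩
      · simp
      · simp; omega
    | mul y z _ _ ihy ihz =>
      obtain ⟨y1, y2, y3⟩ := ihy
      obtain ⟨z1, z2, z3⟩ := ihz
      simp only [Pi.mul_apply, L_mul, R_mul, V_mul]
      exact ⟨y1, z2, by omega⟩
  obtain ⟨i1, i2, i3⟩ := inv x hx
  have h0 := h (fun _ => false) (by
    intro h'
    have := congrFun h' 0
    simp at this)
  rw [ker_iff] at h0 ⊢
  exact ⟨i1 h0.1, by have := h0.2.1; omega, i2 h0.2.2⟩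

theorem leftNilpotent : LeftNilpotent T 2 := by
  have h1 : leftSeries T 1 ≤ ker := comm_top_top_le
  have h2 : comm (k := 1) ![⊤, leftSeries T 1] ≤ ⊥ := by
    apply sInf_le
    intro x hx h
    have inv : ∀ x ∈ M (k := 1) ![⊤, leftSeries T 1],
        (∀ ε, ker (x ε false) (x ε true)) ∧
        (x (fun _ => false) false = x (fun _ => false) true →
          x (fun _ => true) false = x (fun _ => true) true) := by
      intro x hx
      induction hx using Subsemigroup.closure_induction with
      | mem y hy =>
        rcases hy with ⟨i, a, c, _, rfl⟩ | ⟨a, c, hac, rfl⟩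
        · exact ⟨fun ε => ker.refl _, fun _ => rfl⟩
        · refine ⟨fun ε => ?_, fun h => h⟩
          have : leftSeries T 1 a c := by simpa using hac
          simpa using h1 this
      | mul y z _ _ ihy ihz =>
        have e : ∀ ε, (y * z) ε false = (y * z) ε true := by
          intro ε
          simp only [Pi.mul_apply]
          exact mul_eq_of_ker (ihy.1 ε) (ihz.1 ε)
        exact ⟨fun ε => by rw [e ε]; exact ker.refl _, fun _ => e _⟩
    have h0 := h (fun _ => false) (by
      intro h'
      have := congrFun h' 0
      simp at this)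
    have h0' : x (fun _ => false) false = x (fun _ => false) true := h0
    exact (inv x hx).2 h0'
  exact le_bot_iff.1 h2

theorem rightNilpotent : RightNilpotent T 2 := by
  have h1 : rightSeries T 1 ≤ ker := comm_top_top_le
  have h2 : comm (k := 1) ![rightSeries T 1, ⊤] ≤ ⊥ := by
    apply sInf_le
    intro x hx h
    have inv : ∀ x ∈ M (k := 1) ![rightSeries T 1, ⊤],
        (∀ j, ker (x (fun _ => false) j) (x (fun _ => true) j)) ∧
        (x (fun _ => false) false = x (fun _ => false) true →
          x (fun _ => true) false = x (fun _ => true) true) := by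
      intro x hx
      induction hx using Subsemigroup.closure_induction with
      | mem y hy =>
        rcases hy with ⟨i, a, c, hac, rfl⟩ | ⟨a, c, _, rfl⟩
        · refine ⟨fun j => ?_, fun _ => rfl⟩
          have hi : i = 0 := Subsingleton.elim _ _
          subst hi
          have : rightSeries T 1 a c := by simpa using hac
          simpa using h1 this
        · exact ⟨fun j => ker.refl _, fun h => h⟩
      | mul y z _ _ ihy ihz =>
        have e : ∀ j, (y * z) (fun _ => false) j = (y * z) (fun _ => true) j := by
          intro j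
          simp only [Pi.mul_apply]
          exact mul_eq_of_ker (ihy.1 j) (ihz.1 j)
        exact ⟨fun j => by rw [e j]; exact ker.refl _, fun h => by rw [← e, ← e]; exact h⟩
    have h0 := h (fun _ => false) (by
      intro h'
      have := congrFun h' 0
      simp at this)
    have h0' : x (fun _ => false) false = x (fun _ => false) true := h0
    exact (inv x hx).2 h0'
  exact le_bot_iff.1 h2

/-- the number `0` for the first column, `1` for the second -/
def c (j : Bool) : ℕ := if j then 1 else 0

theorem exists_matrix (k : ℕ) (m : ℕ) (hm : m ≤ k) :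
    ∃ y ∈ M (fun _ : Fin (k + 1) => (⊤ : Con T)),
      (∀ ε : Fin k → Bool, (∀ i : Fin k, i.1 < m → ε i = true) →
        ∀ j, ∃ r, y ε j = e true (c j) r) ∧
      (∀ ε : Fin k → Bool, (∃ i : Fin k, i.1 < m ∧ ε i = false) →
        ∃ N r, 3 ≤ N ∧ ∀ j, y ε j = e true (N + c j) r) := by
  induction m with
  | zero =>
    refine ⟨fun _ j => if j then e true 1 true else e true 0 true, ?_, ?_, ?_⟩
    · apply Subsemigroup.subset_closure
      right
      exact ⟨_, _, trivial, rfl⟩
    · intro ε _ j
      refine ⟨true, ?_⟩
      cases j <;> simp [c]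
    · rintro ε ⟨i, hi, _⟩
      omega
  | succ m ih =>
    obtain ⟨y, hy, h1, h2⟩ := ih (by omega)
    let i0 : Fin k := ⟨m, by omega⟩
    refine ⟨y * (fun ε _ => if ε i0 then b else e true 1 true), ?_, ?_, ?_⟩
    · apply Subsemigroup.mul_mem _ hy
      apply Subsemigroup.subset_closure
      left
      exact ⟨i0, _, _, trivial, rfl⟩
    · intro ε hε j
      obtain ⟨r, hr⟩ := h1 ε (fun i hi => hε i (by omega)) j
      have h3 : ε i0 = true := hε i0 (by simp [i0])
      refine ⟨false, ?_⟩
      simp only [Pi.mul_apply, hr, h3, if_true]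
      rfl
    · rintro ε ⟨i, hi, hi'⟩
      by_cases hlt : ∃ i : Fin k, i.1 < m ∧ ε i = false
      · obtain ⟨N, r, hN, hj⟩ := h2 ε hlt
        by_cases h3 : ε i0 = true
        · refine ⟨N, false, hN, fun j => ?_⟩
          simp only [Pi.mul_apply, hj, h3, if_true]
          rfl
        · refine ⟨N + 3, true, by omega, fun j => ?_⟩
          simp only [Pi.mul_apply, hj, h3, mul_def, mul]
          simp
          omega
      · push Not at hlt
        have h4 : ∀ i : Fin k, i.1 < m → ε i = true := by
          intro i hi
          have := hlt i hi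
          simpa using this
        have h3 : ε i0 = false := by
          have : i = i0 := by
            apply Fin.ext
            simp only [i0]
            by_contra hne
            have := h4 i (by omega)
            rw [this] at hi'
            exact absurd hi' (by simp)
          rw [← this]
          exact hi'
        refine ⟨3, true, le_refl _, fun j => ?_⟩
        obtain ⟨r, hr⟩ := h1 ε h4 j
        simp only [Pi.mul_apply, hr, h3, mul_def, mul]
        simp
        omega

theorem not_supernilpotent (d : ℕ) : ¬ Supernilpotent T d := by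
  intro hs
  obtain ⟨y, hy, h1, h2⟩ := exists_matrix d d le_rfl
  let z : (Fin d → Bool) → Bool → T := fun _ j => if j then e true 0 true else e true 1 true
  have hz : z ∈ M (fun _ : Fin (d + 1) => (⊤ : Con T)) := by
    apply Subsemigroup.subset_closure
    right
    exact ⟨_, _, trivial, rfl⟩
  have hx : y * z ∈ M (fun _ : Fin (d + 1) => (⊤ : Con T)) := Subsemigroup.mul_mem _ hy hz
  have hrel : comm (fun _ : Fin (d + 1) => (⊤ : Con T)) (e true 3 true) D := by
    have h3 := (comm_isLeast (fun _ : Fin (d + 1) => (⊤ : Con T))).1 (y * z) hx (by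
      intro ε hε
      have h4 : ∃ i : Fin d, i.1 < d ∧ ε i = false := by
        by_contra hc
        push Not at hc
        apply hε
        funext i
        have := hc i i.2
        simpa using this
      obtain ⟨N, r, hN, hj⟩ := h2 ε h4
      have h5 : (y * z) ε false = (y * z) ε true := by
        simp only [Pi.mul_apply, hj, z, mul_def]
        simp [c, mul]
        have : N ≠ 0 := by omega
        simp [this]
      rw [h5]
      exact Con.refl _ _)
    obtain ⟨r, hr⟩ := h1 (fun _ => true) (fun _ _ => rfl) false
    obtain ⟨r', hr'⟩ := h1 (fun _ => true) (fun _ _ => rfl) true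
    have h6 : (y * z) (fun _ => true) false = e true 3 true := by
      simp only [Pi.mul_apply, hr, z, mul_def]
      simp [c, mul]
    have h7 : (y * z) (fun _ => true) true = D := by
      simp only [Pi.mul_apply, hr', z, mul_def]
      simp [c, mul]
    rw [h6, h7] at h3
    exact h3
  rw [hs] at hrel
  have : e true 3 true = D := hrel
  exact absurd this (by simp)

/-- There is a semigroup that is left 2-nilpotent and right 2-nilpotent, but not supernilpotent. -/
theorem result : ∃ (S : Type) (_ : Semigroup S),
    LeftNilpotent S 2 ∧ RightNilpotent S 2 ∧ ∀ d, ¬ Supernilpotent S d :=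
  ⟨T, inferInstance, leftNilpotent, rightNilpotent, not_supernilpotent⟩

end Pool.Agent.Results.MP_d3d931_al.NilpotentNotSuper
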